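import Pool.Agent.IncSeq.Space

set_option autoImplicit false
set_option linter.unusedSectionVars false

open Set Function Filter

namespace Pool.Agent.IncSeq

variable {W : Type} [LinearOrder W] [OrderBot W] [Om1 W]

/-- the least element of a nonempty set -/
noncomputable def lst (S : Set W) (h : S.Nonempty) : W :=
  WellFounded.min (wellFounded_lt : WellFounded ((· < ·) : W → W → Prop)) S h

theorem lst_mem (S : Set W) (h : S.Nonempty) : lst S h ∈ S := WellFounded.min_mem _ _ h

theorem lst_le (S : Set W) (h : S.Nonempty) {x : W} (hx : x ∈ S) : lst S h ≤ x :=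
  not_lt.1 (WellFounded.not_lt_min _ S hx)

/-- **Main covering property**: every open cover `O` admits a neighbourhood assignment `V` such that
every point `b` satisfies `{a | b ∈ V a} ⊆` a finite union of members of `O`. -/
theorem covering (O : Set (Set (Inc W))) (hO : ∀ U ∈ O, IsOpen U) (hcov : ⋃₀ O = univ) :
    ∃ V : Inc W → Set (Inc W), (∀ a, IsOpen (V a)) ∧ (∀ a, a ∈ V a) ∧
      ∀ b, ∃ F ⊆ O, F.Finite ∧ {a | b ∈ V a} ⊆ ⋃₀ F := by
  classical
  obtain ⟨B, hB⟩ := exists_club O
  let D : Set W := {d | d ≠ ⊥ ∧ ∀ y, y < d → B y < d}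
  have hDprop : ∀ d ∈ D, ∀ (n : ℕ) (s : ℕ → W), (∀ i < n, s i < d) →
      ∀ j, P O (j + 1) n s ↔ P O j (n + 1) (update s n d) := fun d hd => hB d hd.1 hd.2
  have hDu : ∀ x, ∃ d ∈ D, x < d := by
    intro x
    obtain ⟨d, hd, hcl⟩ := exists_closed B x
    exact ⟨d, ⟨(bot_le.trans_lt hd).ne', hcl⟩, hd⟩
  have hDc : ∀ x, x ≠ ⊥ → x ∉ D → ∃ c, c < x ∧ ∀ d ∈ D, d < x → d ≤ c := by
    intro x hx0 hx
    have : ¬ ∀ y, y < x → B y < x := fun h => hx ⟨hx0, h⟩
    push Not at this
    obtain ⟨c, hc, hc'⟩ := this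
    refine ⟨c, hc, fun d hd hdx => ?_⟩
    by_contra hcon
    push Not at hcon
    exact absurd ((hd.2 c hcon).trans hdx) (not_lt.2 hc')
  obtain ⟨gl, hgl, hglf⟩ := exists_gl (W := W)
  -- the secured length
  have hsec : ∀ a : Inc W, ∃ n, P O 0 n a.1 := by
    intro a
    have : a ∈ ⋃₀ O := by rw [hcov]; exact mem_univ a
    obtain ⟨U, hU, haU⟩ := this
    obtain ⟨n, g, hg, hn⟩ := isOpen_iff.1 (hO U hU) a haU
    exact ⟨n, g, fun i _ => hg i, U, hU, hn⟩
  let N : Inc W → ℕ := fun a => Nat.find (hsec a)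
  have hN : ∀ a, P O 0 (N a) a.1 := fun a => Nat.find_spec (hsec a)
  have hNmono : ∀ (a : Inc W) (m : ℕ), N a ≤ m → P O 0 m a.1 := by
    intro a m hm
    induction m, hm using Nat.le_induction with
    | base => exact hN a
    | succ m _ ih => exact P.zero_succ (a.bot_lt m) ih
  have hL : ∀ (a : Inc W) (i : ℕ), ∃ l, l < a.1 i ∧ (∀ j, j + 1 = i → a.1 j ≤ l) ∧
      gl (a.1 (i + 1)) (a.1 i) ≤ l ∧
      (a.1 i ∉ D → (∀ d ∈ D, d < a.1 i → d ≤ l) ∧
        ∀ d ∈ D, a.1 i < d → (∀ e ∈ D, a.1 i ≤ e → d ≤ e) → gl d (a.1 i) ≤ l) := by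
    intro a i
    have hne : a.1 i ≠ ⊥ := (a.bot_lt i).ne'
    have h1 : ∃ l, l < a.1 i ∧ ∀ j, j + 1 = i → a.1 j ≤ l := by
      cases i with
      | zero => exact ⟨⊥, a.bot_lt 0, fun j hj => by omega⟩
      | succ k => exact ⟨a.1 k, a.2.1 (Nat.lt_succ_self k), fun j hj => by
          have : j = k := by omega
          rw [this]⟩
    obtain ⟨l1, hl1, hl1'⟩ := h1
    have h2 : gl (a.1 (i + 1)) (a.1 i) < a.1 i := hgl _ _ (a.2.1 (Nat.lt_succ_self i)) hne
    by_cases hxD : a.1 i ∈ D
    · exact ⟨max l1 (gl (a.1 (i + 1)) (a.1 i)), max_lt hl1 h2,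
        fun j hj => (hl1' j hj).trans (le_max_left _ _), le_max_right _ _, fun h => (h hxD).elim⟩
    · obtain ⟨c, hc, hc'⟩ := hDc _ hne hxD
      obtain ⟨d0, hd0, hd0'⟩ := hDu (a.1 i)
      have hneD : {d | d ∈ D ∧ a.1 i < d}.Nonempty := ⟨d0, hd0, hd0'⟩
      have hd1 : lst _ hneD ∈ D ∧ a.1 i < lst _ hneD := lst_mem _ hneD
      have h3 : gl (lst _ hneD) (a.1 i) < a.1 i := hgl _ _ hd1.2 hne
      refine ⟨max (max l1 (gl (a.1 (i + 1)) (a.1 i))) (max c (gl (lst _ hneD) (a.1 i))),
        max_lt (max_lt hl1 h2) (max_lt hc h3),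
        fun j hj => ((hl1' j hj).trans (le_max_left _ _)).trans (le_max_left _ _),
        (le_max_right _ _).trans (le_max_left _ _),
        fun _ => ⟨fun d hd hlt => ?_, fun d hd hlt hmin => ?_⟩⟩
      · exact ((hc' d hd hlt).trans (le_max_left _ _)).trans (le_max_right _ _)
      · have e1 : d ≤ lst _ hneD := hmin _ hd1.1 hd1.2.le
        have e2 : lst _ hneD ≤ d := lst_le _ hneD ⟨hd, hlt⟩
        rw [le_antisymm e1 e2]
        exact (le_max_right _ _).trans (le_max_right _ _)
  choose L hL1 hL2 hL3 hL4 using hL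
  refine ⟨fun a => box (N a + 1) (L a) a.1, fun a => isOpen_box _ _ _,
    fun a => mem_box_self _ _ _ fun i _ => hL1 a i, fun b => ?_⟩
  by_contra hcon
  push Not at hcon
  -- an ultrafilter
  let A : Set (Inc W) := {a | b ∈ box (N a + 1) (L a) a.1}
  have hfip : ∀ T : Finset (Set (Inc W)), (↑T : Set (Set (Inc W))) ⊆ {A} ∪ compl '' O →
      (⋂₀ (↑T : Set (Set (Inc W)))).Nonempty := by
    intro T hT
    let F : Set (Set (Inc W)) := {U | U ∈ O ∧ Uᶜ ∈ T}
    have hFfin : F.Finite := by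
      apply Set.Finite.of_finite_image (f := compl)
      · exact T.finite_toSet.subset (by rintro _ ⟨U, hU, rfl⟩; exact hU.2)
      · exact compl_injective.injOn
    have h := hcon F (fun U hU => hU.1) hFfin
    rw [not_subset] at h
    obtain ⟨a, haA, haF⟩ := h
    refine ⟨a, fun S hS => ?_⟩
    rcases hT hS with h1 | ⟨U, hU, rfl⟩
    · rw [mem_singleton_iff.1 h1]; exact haA
    · intro haU
      exact haF ⟨U, ⟨hU, hS⟩, haU⟩
  obtain ⟨u, hu⟩ := Ultrafilter.exists_ultrafilter_of_finite_inter_nonempty _ hfip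
  have huA : ∀ᶠ a in (u : Filter (Inc W)), a ∈ A := hu (Or.inl rfl)
  have huO : ∀ U ∈ O, ∀ᶠ a in (u : Filter (Inc W)), a ∉ U := fun U hU =>
    hu (Or.inr ⟨U, hU, rfl⟩)
  have hcontra : ∀ (m : ℕ) (g s : ℕ → W) (U : Set (Inc W)), U ∈ O → box m g s ⊆ U →
      (∀ i < m, ∀ᶠ a in (u : Filter (Inc W)), g i < a.1 i ∧ a.1 i ≤ s i) → False := by
    intro m g s U hU hsub h
    have h1 : ∀ᶠ a in (u : Filter (Inc W)), ∀ i ∈ Finset.range m, g i < a.1 i ∧ a.1 i ≤ s i := by
      rw [Filter.eventually_all_finset]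
      intro i hi
      exact h i (Finset.mem_range.1 hi)
    obtain ⟨a, ha1, ha2⟩ := (h1.and (huO U hU)).exists
    exact ha2 (hsub fun i hi => ha1 i (Finset.mem_range.2 hi))
  -- limits of the coordinates
  let R : ℕ → Prop := fun i => ∀ᶠ a in (u : Filter (Inc W)), i < N a
  have hRmono : ∀ {i j}, i ≤ j → R j → R i := fun hij hj => hj.mono fun a ha => hij.trans_lt ha
  have hup : ∀ i, R i → ∀ᶠ a in (u : Filter (Inc W)), a.1 i < b.1 (i + 1) := by
    intro i hi
    filter_upwards [hi, huA] with a h1 h2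
    have h3 := h2 (i + 1) (by omega)
    exact (hL2 a (i + 1) i rfl).trans_lt h3.1
  have hlow : ∀ i, R i → ∀ᶠ a in (u : Filter (Inc W)), L a i < b.1 i ∧ b.1 i ≤ a.1 i := by
    intro i hi
    filter_upwards [hi, huA] with a h1 h2
    exact h2 i (by omega)
  have hsig : ∀ i, ∃ s : W, R i → (∀ᶠ a in (u : Filter (Inc W)), a.1 i ≤ s) ∧
      ∀ y, y < s → ∀ᶠ a in (u : Filter (Inc W)), y < a.1 i := by
    intro i
    by_cases hi : R i
    · have hne : {y : W | ∀ᶠ a in (u : Filter (Inc W)), a.1 i ≤ y}.Nonempty :=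
        ⟨b.1 (i + 1), (hup i hi).mono fun a ha => ha.le⟩
      refine ⟨lst _ hne, fun _ => ⟨lst_mem _ hne, fun y hy => ?_⟩⟩
      have h1 : ¬ ∀ᶠ a in (u : Filter (Inc W)), a.1 i ≤ y := fun h =>
        absurd (lst_le _ hne h) (not_le.2 hy)
      have h2 := Ultrafilter.eventually_not.2 h1
      exact h2.mono fun a ha => not_le.1 ha
    · exact ⟨⊥, fun h => (hi h).elim⟩
  choose sg hsg using hsig
  have hsgle : ∀ i, R i → ∀ᶠ a in (u : Filter (Inc W)), a.1 i ≤ sg i := fun i hi => (hsg i hi).1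
  have hsglt : ∀ i, R i → ∀ y, y < sg i → ∀ᶠ a in (u : Filter (Inc W)), y < a.1 i :=
    fun i hi => (hsg i hi).2
  have hsgb : ∀ i, R i → sg i ≤ b.1 (i + 1) := by
    intro i hi
    by_contra h
    push Not at h
    obtain ⟨a, h1, h2⟩ := ((hsglt i hi _ h).and (hup i hi)).exists
    exact absurd (h1.trans h2) (lt_irrefl _)
  -- finite trap
  have htrap : ∀ i, R i → ∀ K : Set W, K.Finite → (∀ᶠ a in (u : Filter (Inc W)), a.1 i ∈ K) →
      ∀ᶠ a in (u : Filter (Inc W)), a.1 i = sg i := by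
    intro i hi K hK hev
    have h1 : ∃ y ∈ K, ∀ᶠ a in (u : Filter (Inc W)), a.1 i = y := by
      by_contra h
      push Not at h
      have h2 : ∀ y ∈ K, ∀ᶠ a in (u : Filter (Inc W)), a.1 i ≠ y := fun y hy => h y hy
      have h3 : ∀ᶠ a in (u : Filter (Inc W)), ∀ y ∈ K, a.1 i ≠ y :=
        (Filter.eventually_all_finite hK).2 h2
      obtain ⟨a, h4, h5⟩ := (h3.and hev).exists
      exact h4 _ h5 rfl
    obtain ⟨y, _, hy⟩ := h1
    have h2 : sg i ≤ y := by
      by_contra h
      push Not at h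
      obtain ⟨a, h3, h4⟩ := ((hsglt i hi y h).and hy).exists
      exact absurd h4 h3.ne'
    filter_upwards [hy, hsgle i hi] with a h3 h4
    exact le_antisymm h4 (h3 ▸ h2)
  have hconst : ∀ i, R i → (∃ l, ∀ᶠ a in (u : Filter (Inc W)), a.1 (i + 1) = l) →
      ∀ᶠ a in (u : Filter (Inc W)), a.1 i = sg i := by
    rintro i hi ⟨l, hl⟩
    apply htrap i hi _ (hglf l (b.1 i))
    filter_upwards [hl, hlow i hi] with a h1 h2
    refine ⟨h2.2, h1 ▸ a.2.1 (Nat.lt_succ_self i), ?_⟩
    exact (h1 ▸ hL3 a i).trans_lt h2.1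
  have hDev : ∀ i, R i → (¬ ∀ᶠ a in (u : Filter (Inc W)), a.1 i = sg i) →
      ∀ᶠ a in (u : Filter (Inc W)), a.1 i ∈ D := by
    intro i hi hnc
    by_contra hnD
    have h1 := Ultrafilter.eventually_not.2 hnD
    apply hnc
    obtain ⟨d0, hd0, hd0'⟩ := hDu (b.1 i)
    have hneD : {d | d ∈ D ∧ b.1 i ≤ d}.Nonempty := ⟨d0, hd0, hd0'.le⟩
    apply htrap i hi _ (hglf (lst _ hneD) (b.1 i))
    filter_upwards [h1, hlow i hi] with a h2 h3
    obtain ⟨h4, h5⟩ := hL4 a i h2
    have h6 : lst _ hneD ∈ D ∧ b.1 i ≤ lst _ hneD := lst_mem _ hneD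
    have h7 : a.1 i < lst _ hneD := by
      rcases lt_trichotomy (lst _ hneD) (a.1 i) with h | h | h
      · exact absurd ((h4 _ h6.1 h).trans_lt h3.1) (not_lt.2 h6.2)
      · exact (h2 (h ▸ h6.1)).elim
      · exact h
    refine ⟨h3.2, h7, (h5 _ h6.1 h7 fun e he hae => ?_).trans_lt h3.1⟩
    exact lst_le _ hneD ⟨he, h3.2.trans hae⟩
  have hsgD : ∀ i, R i → (¬ ∀ᶠ a in (u : Filter (Inc W)), a.1 i = sg i) → sg i ∈ D := by
    intro i hi hnc
    have h1 := hDev i hi hnc
    refine ⟨?_, fun y hy => ?_⟩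
    · intro h
      obtain ⟨a, h2⟩ := (hsgle i hi).exists
      rw [h] at h2
      exact absurd (a.bot_lt i) (not_lt.2 h2)
    · have h2 : ∀ᶠ a in (u : Filter (Inc W)), a.1 i ≠ sg i := Ultrafilter.eventually_not.2 hnc
      obtain ⟨a, h3, h4, h5, h6⟩ := (h1.and ((hsglt i hi y hy).and (h2.and (hsgle i hi)))).exists
      exact (h3.2 y h4).trans (lt_of_le_of_ne h6 h5)
  have hsgmono : ∀ i, R (i + 1) → sg i < sg (i + 1) := by
    intro i hi1
    have hi : R i := hRmono (Nat.le_succ i) hi1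
    by_cases hc : ∀ᶠ a in (u : Filter (Inc W)), a.1 (i + 1) = sg (i + 1)
    · have hc' := hconst i hi ⟨_, hc⟩
      obtain ⟨a, h1, h2⟩ := (hc.and hc').exists
      rw [← h1, ← h2]
      exact a.2.1 (Nat.lt_succ_self i)
    · have h2 : ∀ᶠ a in (u : Filter (Inc W)), a.1 (i + 1) ≠ sg (i + 1) :=
        Ultrafilter.eventually_not.2 hc
      obtain ⟨a, h3, h4, h5⟩ := (h2.and ((hsgle _ hi1).and (hlow _ hi1))).exists
      exact ((hsgb i hi).trans h5.2).trans_lt (lt_of_le_of_ne h4 h3)
  have hboxev : ∀ i, R i → ∀ y, y < sg i → ∀ᶠ a in (u : Filter (Inc W)), y < a.1 i ∧ a.1 i ≤ sg i :=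
    fun i hi y hy => (hsglt i hi y hy).and (hsgle i hi)
  by_cases hall : ∀ i, R i
  · -- the ultrafilter converges
    have hb0 : ⊥ < sg 0 := by
      obtain ⟨a, h1⟩ := (hsgle 0 (hall 0)).exists
      exact (a.bot_lt 0).trans_le h1
    let t : Inc W := ⟨sg, strictMono_nat_of_lt_succ fun i => hsgmono i (hall _), hb0⟩
    have ht : t ∈ ⋃₀ O := by rw [hcov]; exact mem_univ t
    obtain ⟨U, hU, htU⟩ := ht
    obtain ⟨n, g, hg, hn⟩ := isOpen_iff.1 (hO U hU) t htU
    exact hcontra n g sg U hU hn fun i _ => hboxev i (hall i) _ (hg i)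
  · push Not at hall
    let m := Nat.find hall
    have hm : ¬ R m := Nat.find_spec hall
    have hm' : ∀ i < m, R i := fun i hi => by
      have := Nat.find_min hall hi
      push Not at this
      exact this
    have hNm : ∀ᶠ a in (u : Filter (Inc W)), N a ≤ m :=
      (Ultrafilter.eventually_not.2 hm).mono fun a ha => not_lt.1 ha
    have hPm : ∀ᶠ a in (u : Filter (Inc W)), P O 0 m a.1 := hNm.mono fun a ha => hNmono a m ha
    -- strict monotonicity of `sg` below `m`
    have hsgmono' : ∀ k i, k < i → i < m → sg k < sg i := by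
      intro k i hki
      induction i, hki using Nat.le_induction with
      | base => intro h; exact hsgmono k (hm' _ h)
      | succ i _ ih => intro h; exact (ih (by omega)).trans (hsgmono i (hm' _ h))
    -- climb along `sg`
    have hclimb : ∀ q, q ≤ m → (∀ k, m - q ≤ k → k < m → sg k ∈ D) → P O q (m - q) sg →
        P O 0 m sg := by
      intro q
      induction q with
      | zero => intro _ _ h; simpa using h
      | succ q ih =>
        intro hq hk hP
        apply ih (by omega) (fun k h1 h2 => hk k (by omega) h2)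
        have hi : m - (q + 1) < m := by omega
        have h1 := (hDprop (sg (m - (q + 1))) (hk _ le_rfl hi) (m - (q + 1)) sg
          (fun k hki => hsgmono' k _ hki hi) q).1 hP
        rw [update_eq_self] at h1
        have h2 : m - (q + 1) + 1 = m - q := by omega
        rwa [h2] at h1
    -- descend while the coordinates are not constant
    have hdesc : ∀ r q, m - q = r → q ≤ m →
        (∀ k, m - q ≤ k → k < m → ¬ ∀ᶠ a in (u : Filter (Inc W)), a.1 k = sg k) →
        (∀ᶠ a in (u : Filter (Inc W)), P O q (m - q) a.1) → P O 0 m sg := by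
      intro r
      induction r with
      | zero =>
        intro q hr hq hnc hP
        obtain ⟨a, ha⟩ := hP.exists
        apply hclimb q hq (fun k h1 h2 => hsgD k (hm' k h2) (hnc k h1 h2))
        refine P.congr (fun i hi => ?_) ha
        omega
      | succ r ih =>
        intro q hr hq hnc hP
        by_cases hc : ∀ᶠ a in (u : Filter (Inc W)), a.1 r = sg r
        · -- all earlier coordinates are constant
          have hall' : ∀ k, k ≤ r → ∀ᶠ a in (u : Filter (Inc W)), a.1 k = sg k := by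
            intro k hk
            induction hj : r - k generalizing k with
            | zero => have : k = r := by omega
                      rw [this]; exact hc
            | succ j ihj =>
              have h1 := ihj (k + 1) (by omega) (by omega)
              exact hconst k (hm' k (by omega)) ⟨_, h1⟩
          have h1 : ∀ᶠ a in (u : Filter (Inc W)), ∀ k ∈ Finset.range (r + 1), a.1 k = sg k := by
            rw [Filter.eventually_all_finset]
            intro k hk
            exact hall' k (by have := Finset.mem_range.1 hk; omega)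
          obtain ⟨a, h2, h3⟩ := (h1.and hP).exists
          apply hclimb q hq (fun k h1 h2 => hsgD k (hm' k h2) (hnc k h1 h2))
          refine P.congr (fun i hi => ?_) h3
          exact h2 i (Finset.mem_range.2 (by omega))
        · have hrm : r < m := by omega
          have h1 := hDev r (hm' r hrm) hc
          apply ih (q + 1) (by omega) (by omega)
          · intro k h2 h3
            rcases eq_or_ne k r with h4 | h4
            · rw [h4]; exact hc
            · exact hnc k (by omega) h3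
          · filter_upwards [h1, hP] with a h2 h3
            have h4 : m - (q + 1) = r := by omega
            rw [h4]
            rw [hDprop (a.1 r) h2 r a.1 (fun k hk => a.2.1 hk) q, update_eq_self]
            rwa [hr] at h3
    obtain ⟨g, hg, U, hU, hsub⟩ := hdesc m 0 (by simp) (Nat.zero_le _)
      (fun k h1 h2 => by omega) (by simpa using hPm)
    exact hcontra m g sg U hU hsub fun i hi => hboxev i (hm' i hi) _ (hg i hi)

end Pool.Agent.IncSeq
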