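import Pool.Agent.IncSeq.NotMeta

set_option autoImplicit false
set_option linter.unusedSectionVars false

open Set Function Filter Cardinal

namespace Pool.Agent.IncSeq

/-- the first uncountable ordinal as a type in `Type` -/
abbrev W0 : Type := (Cardinal.aleph 1 : Cardinal.{0}).ord.ToType

theorem mk_W0 : #W0 = Cardinal.aleph 1 := by simp [W0]

instance : Nonempty W0 := by
  have : #W0 ≠ 0 := by
    rw [mk_W0]
    exact (aleph0_pos.trans (by simp)).ne'
  exact Cardinal.mk_ne_zero_iff.1 this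

noncomputable instance : OrderBot W0 := WellFoundedLT.toOrderBot W0

instance : Om1 W0 where
  wf := inferInstance
  ctb := fun w => by
    have h1 : #(Iio w) < #W0 := mk_Iio_lt w (by simp [W0])
    rw [mk_W0] at h1
    have h2 : (Iio w).Countable := by
      rw [← le_aleph0_iff_set_countable]
      exact lt_aleph_one_iff.1 h1
    have h3 : Iic w = insert w (Iio w) := by
      ext x; simp [le_iff_eq_or_lt]
    rw [h3]
    exact h2.insert w
  unc := fun h => by
    have h1 : #(Set.univ : Set W0) ≤ ℵ₀ := le_aleph0_iff_set_countable.2 h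
    rw [Cardinal.mk_univ, mk_W0] at h1
    exact absurd h1 (not_le.2 aleph0_lt_aleph_one)

/-- The counterexample space. -/
abbrev X0 : Type := Inc W0

theorem X0_covering (O : Set (Set X0)) (hO : ∀ U ∈ O, IsOpen U) (hcov : ⋃₀ O = Set.univ) :
    ∃ V : X0 → Set X0, (∀ a, IsOpen (V a)) ∧ (∀ a, a ∈ V a) ∧
      ∀ b, ∃ F ⊆ O, F.Finite ∧ {a | b ∈ V a} ⊆ ⋃₀ F := covering O hO hcov

instance : Nonempty X0 := by
  obtain ⟨b, -⟩ := complete (W := W0) (n := 0) (s := fun _ => ⊥) (B := fun _ _ => ⊥)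
    ⟨fun i hi => by omega, fun i j _ hj => by omega⟩ (fun _ _ _ _ => rfl)
  exact ⟨b⟩

/-- In a directed family a finite subfamily has an upper bound. -/
theorem exists_upper {X : Type} {C : Set (Set X)} (hne : C.Nonempty)
    (hd : DirectedOn (· ⊆ ·) C) {F : Set (Set X)} (hF : F.Finite) (hFC : F ⊆ C) :
    ∃ U ∈ C, ⋃₀ F ⊆ U := by
  induction F, hF using Set.Finite.induction_on with
  | empty => obtain ⟨U, hU⟩ := hne; exact ⟨U, hU, by simp⟩
  | @insert a s _ _ ih =>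
    obtain ⟨U, hU, hsU⟩ := ih ((subset_insert _ _).trans hFC)
    obtain ⟨V, hV, h1, h2⟩ := hd a (hFC (mem_insert _ _)) U hU
    refine ⟨V, hV, ?_⟩
    rw [sUnion_insert]
    exact union_subset h1 (hsU.trans h2)

/-- Every directed open cover of `X0` has a cushioned refinement (by singletons). -/
theorem X0_cushioned (C : Set (Set X0)) (hC : ∀ U ∈ C, IsOpen U) (hcov : ⋃₀ C = Set.univ)
    (hdir : DirectedOn (· ⊆ ·) C) :
    ∃ R : Set (Set X0), ⋃₀ R = Set.univ ∧ ∃ f : Set X0 → Set X0, (∀ V ∈ R, f V ∈ C) ∧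
      ∀ S ⊆ R, closure (⋃₀ S) ⊆ ⋃₀ (f '' S) := by
  classical
  have hne : C.Nonempty := by
    obtain ⟨x⟩ := (inferInstance : Nonempty X0)
    have : x ∈ ⋃₀ C := by rw [hcov]; exact mem_univ x
    obtain ⟨U, hU, _⟩ := this
    exact ⟨U, hU⟩
  obtain ⟨V, hVo, hVs, hVf⟩ := X0_covering C hC hcov
  have key : ∀ b, ∃ U ∈ C, {a | b ∈ V a} ⊆ U := by
    intro b
    obtain ⟨F, hFC, hF, hb⟩ := hVf b
    obtain ⟨U, hU, hFU⟩ := exists_upper hne hdir hF hFC
    exact ⟨U, hU, hb.trans hFU⟩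
  choose phi hphiC hphi using key
  let f : Set X0 → Set X0 := fun A => if h : A.Nonempty then phi h.some else ∅
  have hf : ∀ x : X0, f {x} = phi x := by
    intro x
    have h : ({x} : Set X0).Nonempty := singleton_nonempty x
    have h2 : h.some = x := h.some_mem
    simp only [f, dif_pos h, h2]
  refine ⟨range fun x : X0 => ({x} : Set X0), ?_, f, ?_, ?_⟩
  · ext x; simp
  · rintro _ ⟨x, rfl⟩
    rw [hf]; exact hphiC x
  · intro S hS a ha
    rw [mem_closure_iff] at ha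
    obtain ⟨b, hb1, A, hA, hbA⟩ := ha (V a) (hVo a) (hVs a)
    obtain ⟨x, rfl⟩ := hS hA
    have : b = x := hbA
    subst this
    exact ⟨f {b}, ⟨_, hA, rfl⟩, by rw [hf]; exact hphi b hb1⟩

/-- The increasing open cover without point-finite open refinement. -/
def cov0 : Set (Set X0) := range fun r : W0 => {a : X0 | a.1 0 ≤ r}

theorem cov0_open : ∀ U ∈ cov0, IsOpen U := by
  rintro _ ⟨r, rfl⟩
  rw [isOpen_iff]
  intro a ha
  exact ⟨1, fun _ => ⊥, fun i => a.bot_lt i, fun b hb => ((hb 0 (by omega)).2).trans ha⟩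

theorem cov0_cover : ⋃₀ cov0 = Set.univ := by
  ext a
  simp only [mem_univ, iff_true]
  exact ⟨{b : X0 | b.1 0 ≤ a.1 0}, ⟨a.1 0, rfl⟩, show a.1 0 ≤ a.1 0 from le_rfl⟩

theorem X0_not_meta : ¬ ∃ R : Set (Set X0), (∀ V ∈ R, IsOpen V) ∧ ⋃₀ R = Set.univ ∧
    (∀ V ∈ R, ∃ U ∈ cov0, V ⊆ U) ∧ ∀ x : X0, {V ∈ R | x ∈ V}.Finite := by
  rintro ⟨R, h1, h2, h3, h4⟩
  refine no_pointfinite R h1 h2 (fun G hG => ?_) h4
  obtain ⟨_, ⟨r, rfl⟩, hU⟩ := h3 G hG
  exact ⟨r, fun a ha => hU ha⟩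

end Pool.Agent.IncSeq
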