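import Mathlib

set_option autoImplicit false
set_option linter.unusedSectionVars false

open Set

namespace Pool.Agent.IncSeq

/-- Orders that behave like the first uncountable ordinal. -/
class Om1 (W : Type) [LinearOrder W] : Prop where
  wf : WellFoundedLT W
  ctb : ∀ w : W, (Iic w).Countable
  unc : ¬ (univ : Set W).Countable

variable {W : Type} [LinearOrder W] [OrderBot W] [Om1 W]

instance (priority := 100) instWF : WellFoundedLT W := Om1.wf

theorem exists_gt_of_countable {A : Set W} (hA : A.Countable) : ∃ w : W, ∀ a ∈ A, a < w := by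
  by_contra h
  push Not at h
  apply Om1.unc (W := W)
  have : (univ : Set W) ⊆ ⋃ a ∈ A, Iic a := by
    intro w _
    obtain ⟨a, ha, hwa⟩ := h w
    exact mem_biUnion ha hwa
  exact (hA.biUnion fun a _ => Om1.ctb a).mono this

theorem exists_gt_range {ι : Type} [Countable ι] (f : ι → W) : ∃ w : W, ∀ i, f i < w := by
  obtain ⟨w, hw⟩ := exists_gt_of_countable (countable_range f)
  exact ⟨w, fun i => hw _ (mem_range_self i)⟩

/-- strict upper bound of a sequence -/
noncomputable def sb (f : ℕ → W) : W := (exists_gt_range f).choose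

theorem lt_sb (f : ℕ → W) (k : ℕ) : f k < sb f := (exists_gt_range f).choose_spec k

/-- The nonstationary sets. -/
def NS (S : Set W) : Prop :=
  ∃ f : W → W, (∀ x ∈ S, x ≠ ⊥ → f x < x) ∧ ∀ y, ∃ b, ∀ x ∈ S, f x = y → x ≤ b

theorem NS.mono {S T : Set W} (h : S ⊆ T) (hT : NS T) : NS S := by
  obtain ⟨f, hf, hb⟩ := hT
  refine ⟨f, fun x hx => hf x (h hx), fun y => ?_⟩
  obtain ⟨b, hb⟩ := hb y
  exact ⟨b, fun x hx => hb x (h hx)⟩

theorem NS.of_bdd {S : Set W} (b : W) (h : ∀ x ∈ S, x ≤ b) : NS S :=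
  ⟨fun _ => ⊥, fun _ _ hx => bot_lt_iff_ne_bot.2 hx, fun _ => ⟨b, fun x hx _ => h x hx⟩⟩

theorem NS.iUnion {ι : Type} [Countable ι] {S : ι → Set W} (h : ∀ i, NS (S i)) :
    NS (⋃ i, S i) := by
  classical
  choose f hf b hb using h
  by_cases hne : Nonempty ι
  · let i0 : ι := Classical.choice hne
    let c : W → ι := fun x => if hx : ∃ i, x ∈ S i then hx.choose else i0
    have hc : ∀ x ∈ ⋃ i, S i, x ∈ S (c x) := by
      intro x hx
      have hx' : ∃ i, x ∈ S i := mem_iUnion.1 hx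
      simp only [c, dif_pos hx']
      exact hx'.choose_spec
    refine ⟨fun x => f (c x) x, fun x hx hxb => hf _ x (hc x hx) hxb, fun y => ?_⟩
    obtain ⟨w, hw⟩ := exists_gt_range (fun i => b i y)
    refine ⟨w, fun x hx hxy => ?_⟩
    exact (hb (c x) y x (hc x hx) hxy).trans (hw _).le
  · refine NS.of_bdd ⊥ fun x hx => ?_
    obtain ⟨i, _⟩ := mem_iUnion.1 hx
    exact (hne ⟨i⟩).elim

theorem NS.union {S T : Set W} (hS : NS S) (hT : NS T) : NS (S ∪ T) := by
  have : S ∪ T = ⋃ b : Bool, (if b then S else T) := by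
    ext x; simp [or_comm]
  rw [this]
  apply NS.iUnion
  intro b; cases b <;> simpa

theorem NS.diag {S : W → Set W} (h : ∀ w, NS (S w)) : NS {x | ∃ w, w < x ∧ x ∈ S w} := by
  classical
  choose f hf b hb using h
  let c : W → W := fun x => if hx : ∃ w, w < x ∧ x ∈ S w then hx.choose else ⊥
  have hc : ∀ x, (∃ w, w < x ∧ x ∈ S w) → c x < x ∧ x ∈ S (c x) := by
    intro x hx
    simp only [c, dif_pos hx]
    exact hx.choose_spec
  refine ⟨fun x => max (c x) (f (c x) x), fun x hx hxb => ?_, fun y => ?_⟩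
  · exact max_lt (hc x hx).1 (hf _ x (hc x hx).2 hxb)
  · have hcount : ((fun p : W × W => b p.1 p.2) '' (Iic y ×ˢ Iic y)).Countable :=
      ((Om1.ctb y).prod (Om1.ctb y)).image _
    obtain ⟨w, hw⟩ := exists_gt_of_countable hcount
    refine ⟨w, fun x hx hxy => ?_⟩
    have h1 : c x ≤ y := hxy ▸ le_max_left _ _
    have h2 : f (c x) x ≤ y := hxy ▸ le_max_right _ _
    have h3 : x ≤ b (c x) (f (c x) x) := hb _ _ x (hc x hx).2 rfl
    exact h3.trans (hw _ ⟨(c x, f (c x) x), ⟨h1, h2⟩, rfl⟩).le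

theorem NS.fodor {S : Set W} (hS : ¬ NS S) (f : W → W) (hf : ∀ x ∈ S, x ≠ ⊥ → f x < x) :
    ∃ y, ¬ NS {x ∈ S | f x = y} := by
  by_contra h
  push Not at h
  apply hS
  have h1 := NS.diag h
  have h2 : NS ({⊥} : Set W) := NS.of_bdd ⊥ (by simp)
  refine (h1.union h2).mono fun x hx => ?_
  by_cases hxb : x = ⊥
  · right; simpa using hxb
  · left
    exact ⟨f x, hf x hx hxb, hx, rfl⟩

theorem not_bdd_of_not_NS {S : Set W} (hS : ¬ NS S) (b : W) : ∃ x ∈ S, b < x := by
  by_contra h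
  push Not at h
  exact hS (NS.of_bdd b h)

/-- closure points of `b` are unbounded -/
theorem exists_closed (b : W → W) (x : W) : ∃ d, x < d ∧ ∀ y, y < d → b y < d := by
  classical
  have key : ∀ z : W, ∃ z', z < z' ∧ ∀ y ≤ z, b y < z' := by
    intro z
    have : ((b '' Iic z) ∪ {z}).Countable := ((Om1.ctb z).image _).union (countable_singleton z)
    obtain ⟨w, hw⟩ := exists_gt_of_countable this
    exact ⟨w, hw z (Or.inr rfl), fun y hy => hw _ (Or.inl ⟨y, hy, rfl⟩)⟩
  choose F hF1 hF2 using key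
  let u : ℕ → W := fun n => Nat.rec x (fun _ z => F z) n
  have hu : ∀ n, u (n + 1) = F (u n) := fun n => rfl
  have hne : {y : W | ∀ n, u n < y}.Nonempty := exists_gt_range u
  let d := WellFounded.min (wellFounded_lt : WellFounded ((· < ·) : W → W → Prop)) _ hne
  have hd : ∀ n, u n < d := WellFounded.min_mem _ _ hne
  refine ⟨d, hd 0, fun y hy => ?_⟩
  have : ¬ ∀ n, u n < y := fun h =>
    WellFounded.not_lt_min (wellFounded_lt : WellFounded ((· < ·) : W → W → Prop))
      {y : W | ∀ n, u n < y} h hy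
  push Not at this
  obtain ⟨n, hn⟩ := this
  exact (hF2 (u n) y hn).trans (hu n ▸ hd (n + 1))

theorem NS.exists_club {S : Set W} (hS : NS S) :
    ∃ b : W → W, ∀ d, d ≠ ⊥ → (∀ y, y < d → b y < d) → d ∉ S := by
  obtain ⟨f, hf, hb⟩ := hS
  choose b hb using hb
  refine ⟨b, fun d hd hcl hdS => ?_⟩
  have h1 := hf d hdS hd
  have h2 := hcl _ h1
  exact absurd (hb _ d hdS rfl) (not_le.2 h2)

theorem not_NS_univ : ¬ NS (univ : Set W) := by
  intro h
  obtain ⟨b, hb⟩ := h.exists_club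
  obtain ⟨d, hd, hcl⟩ := exists_closed b ⊥
  exact hb d (bot_lt_iff_ne_bot.1 hd) hcl (mem_univ d)

theorem not_NS_Ioi {S : Set W} (hS : ¬ NS S) (b : W) : ¬ NS {x ∈ S | b < x} := by
  intro h
  apply hS
  refine (h.union (NS.of_bdd b (S := Iic b) fun x hx => hx)).mono fun x hx => ?_
  rcases lt_or_ge b x with h1 | h1
  · left; exact ⟨hx, h1⟩
  · right; exact h1

/-- Uniformisation of neighbourhood data on a stationary set. -/
theorem uniformize {S : Set W} (hS : ¬ NS S) (n : ℕ) (s : ℕ → W) (g : W → ℕ → W)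
    (h1 : ∀ x ∈ S, ∀ i < n, g x i < s i) (h2 : ∀ x ∈ S, g x n < x) :
    ∃ v : ℕ → W, ¬ NS {x ∈ S | (∀ i < n, g x i = v i) ∧ g x n = v n} := by
  classical
  -- countably many values
  let K : Set (Fin n → W) := Set.pi univ fun i : Fin n => Iic (s i)
  have hK : K.Countable := countable_univ_pi fun i => Om1.ctb _
  have : Countable K := hK.to_subtype
  have hex : ∃ t : K, ¬ NS {x ∈ S | ∀ i : Fin n, g x i = t.1 i} := by
    by_contra h
    push Not at h
    apply hS
    refine (NS.iUnion h).mono fun x hx => ?_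
    rw [mem_iUnion]
    refine ⟨⟨fun i => g x i, ?_⟩, hx, fun i => rfl⟩
    intro i _
    exact (h1 x hx i i.2).le
  obtain ⟨t, ht⟩ := hex
  obtain ⟨y, hy⟩ := NS.fodor ht (fun x => g x n) (fun x hx _ => h2 x hx.1)
  refine ⟨fun i => if h : i < n then t.1 ⟨i, h⟩ else y, fun h => hy (h.mono ?_)⟩
  rintro x ⟨⟨hxS, hxt⟩, hxy⟩
  refine ⟨hxS, fun i hi => ?_, ?_⟩
  · simp only [dif_pos hi]; exact hxt ⟨i, hi⟩
  · simpa using hxy

end Pool.Agent.IncSeq
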