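import Pool.Agent.IncSeq.Cover

set_option autoImplicit false
set_option linter.unusedSectionVars false

open Set Function Filter

namespace Pool.Agent.IncSeq

variable {W : Type} [LinearOrder W] [OrderBot W] [Om1 W]

/-- Building a sequence step by step. -/
theorem build (Q : ℕ → (ℕ → W) → Prop)
    (hQ : ∀ n s s', (∀ i < n, s i = s' i) → Q n s → Q n s') (n0 : ℕ) (s0 : ℕ → W) (h0 : Q n0 s0)
    (step : ∀ n, n0 ≤ n → ∀ s, Q n s → ∃ x, Q (n + 1) (update s n x)) :
    ∃ a : ℕ → W, (∀ i < n0, a i = s0 i) ∧ ∀ n, n0 ≤ n → Q n a := by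
  classical
  have step' : ∀ n s, ∃ x, n0 ≤ n → Q n s → Q (n + 1) (update s n x) := by
    intro n s
    by_cases h : n0 ≤ n ∧ Q n s
    · obtain ⟨x, hx⟩ := step n h.1 s h.2
      exact ⟨x, fun _ _ => hx⟩
    · exact ⟨⊥, fun h1 h2 => (h ⟨h1, h2⟩).elim⟩
  choose F hF using step'
  let t : ℕ → ℕ → W := fun k => Nat.rec s0 (fun k s => update s (n0 + k) (F (n0 + k) s)) k
  have ht0 : t 0 = s0 := rfl
  have ht : ∀ k, t (k + 1) = update (t k) (n0 + k) (F (n0 + k) (t k)) := fun k => rfl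
  have hQt : ∀ k, Q (n0 + k) (t k) := by
    intro k
    induction k with
    | zero => simpa [ht0] using h0
    | succ k ih =>
      rw [ht]
      exact hF _ _ (Nat.le_add_right _ _) ih
  have hst : ∀ k l, k ≤ l → ∀ i < n0 + k, t l i = t k i := by
    intro k l hkl
    induction l, hkl using Nat.le_induction with
    | base => intro i _; rfl
    | succ l hkl ih =>
      intro i hi
      rw [ht, update_of_ne (by omega), ih i hi]
  refine ⟨fun i => t (i + 1) i, fun i hi => ?_, fun n hn => ?_⟩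
  · have := hst 0 (i + 1) (Nat.zero_le _) i (by omega)
    simpa [ht0] using this
  · obtain ⟨k, rfl⟩ := Nat.exists_eq_add_of_le hn
    refine hQ _ _ _ (fun i hi => ?_) (hQt k)
    rcases le_total k (i + 1) with h | h
    · exact (hst k (i + 1) h i hi).symm
    · exact hst (i + 1) k h i (by omega)

/-- Functions of the history. -/
def Caus (B : ℕ → (ℕ → W) → W) : Prop := ∀ m s s', (∀ i < m, s i = s' i) → B m s = B m s'

/-- the first `n` entries of `s` are strictly increasing and above `⊥` -/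
def Good (n : ℕ) (s : ℕ → W) : Prop := (∀ i < n, ⊥ < s i) ∧ ∀ i j, i < j → j < n → s i < s j

theorem Good.congr {n : ℕ} {s s' : ℕ → W} (h : ∀ i < n, s i = s' i) (hs : Good n s) :
    Good n s' := by
  refine ⟨fun i hi => h i hi ▸ hs.1 i hi, fun i j hij hj => ?_⟩
  rw [← h i (hij.trans hj), ← h j hj]
  exact hs.2 i j hij hj

theorem Good.succ {n : ℕ} {s : ℕ → W} (hs : Good n s) {x : W} (hx : ⊥ < x)
    (hx' : ∀ i < n, s i < x) : Good (n + 1) (update s n x) := by
  refine ⟨fun i hi => ?_, fun i j hij hj => ?_⟩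
  · rcases Nat.lt_succ_iff_lt_or_eq.1 hi with h | h
    · rw [update_of_ne h.ne]; exact hs.1 i h
    · subst h; simpa using hx
  · rcases Nat.lt_succ_iff_lt_or_eq.1 hj with h | h
    · rw [update_of_ne h.ne, update_of_ne (hij.trans h).ne]; exact hs.2 i j hij h
    · subst h; rw [update_self, update_of_ne hij.ne]; exact hx' i hij

/-- Completing a finite sequence to a fast growing point. -/
theorem complete {n : ℕ} {s : ℕ → W} (hs : Good n s) {B : ℕ → (ℕ → W) → W} (hB : Caus B) :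
    ∃ b : Inc W, (∀ i < n, b.1 i = s i) ∧ ∀ m, n ≤ m → B m b.1 < b.1 m := by
  obtain ⟨a, ha1, ha2⟩ := build (W := W)
    (fun m t => Good m t ∧ ∀ k, n ≤ k → k < m → B k t < t k)
    (by
      intro m t t' h ⟨h1, h2⟩
      refine ⟨h1.congr h, fun k hk hkm => ?_⟩
      rw [← h k hkm, ← hB k t t' (fun i hi => h i (hi.trans hkm))]
      exact h2 k hk hkm) n s ⟨hs, fun k h1 h2 => by omega⟩
    (by
      intro m hm t ⟨h1, h2⟩
      obtain ⟨x, hx⟩ := exists_gt_of_countable
        (A := {⊥, B m t} ∪ t '' (Iio m : Set ℕ))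
        ((by simp : ({⊥, B m t} : Set W).Countable).union ((Set.to_countable (Iio m : Set ℕ)).image _))
      refine ⟨x, h1.succ (hx _ (Or.inl (by simp))) (fun i hi => hx _ (Or.inr ⟨i, hi, rfl⟩)), ?_⟩
      intro k hk hkm
      rcases Nat.lt_succ_iff_lt_or_eq.1 hkm with h | h
      · rw [update_of_ne h.ne, ← hB k t _ (fun i hi => by rw [update_of_ne (hi.trans h).ne])]
        exact h2 k hk h
      · subst h
        rw [update_self, ← hB k t _ (fun i hi => by rw [update_of_ne hi.ne])]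
        exact hx _ (Or.inl (by simp)))
  have hgood : ∀ m, Good m a := fun m => by
    rcases le_total n m with h | h
    · exact (ha2 m h).1
    · have := (ha2 n le_rfl).1
      exact ⟨fun i hi => this.1 i (hi.trans_le h), fun i j hij hj => this.2 i j hij (hj.trans_le h)⟩
  refine ⟨⟨a, strictMono_nat_of_lt_succ fun k => (hgood (k + 2)).2 k (k + 1) (by omega) (by omega),
    (hgood 1).1 0 (by omega)⟩, ha1, fun m hm => (ha2 (m + 1) (by omega)).2 m hm (by omega)⟩

/-- `G` contains all sufficiently fast growing points of a box around `s|n`. -/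
def Lg (G : Set (Inc W)) (n : ℕ) (s : ℕ → W) : Prop :=
  ∃ g : ℕ → W, (∀ i < n, g i < s i) ∧ ∃ B : ℕ → (ℕ → W) → W, Caus B ∧
    ∀ b : Inc W, (∀ i < n, g i < b.1 i ∧ b.1 i ≤ s i) → (∀ m, n ≤ m → B m b.1 < b.1 m) → b ∈ G

theorem Lg.congr {G : Set (Inc W)} {n : ℕ} {s s' : ℕ → W} (h : ∀ i < n, s i = s' i)
    (hL : Lg G n s) : Lg G n s' := by
  obtain ⟨g, hg, B, hB, hb⟩ := hL
  refine ⟨g, fun i hi => h i hi ▸ hg i hi, B, hB, fun b h1 h2 => hb b (fun i hi => ?_) h2⟩
  rw [h i hi]; exact h1 i hi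

theorem Lg.of_stat {G : Set (Inc W)} {n : ℕ} {s : ℕ → W}
    (h : ¬ NS {x | Lg G (n + 1) (update s n x)}) : Lg G n s := by
  classical
  have key : ∀ x, ∃ g : ℕ → W, ∃ B : ℕ → (ℕ → W) → W, Lg G (n + 1) (update s n x) →
      (∀ i < n + 1, g i < update s n x i) ∧ Caus B ∧
      ∀ b : Inc W, (∀ i < n + 1, g i < b.1 i ∧ b.1 i ≤ update s n x i) →
        (∀ m, n + 1 ≤ m → B m b.1 < b.1 m) → b ∈ G := by
    intro x
    by_cases hx : Lg G (n + 1) (update s n x)
    · obtain ⟨g, hg, B, hB, hb⟩ := hx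
      exact ⟨g, B, fun _ => ⟨hg, hB, hb⟩⟩
    · exact ⟨fun _ => ⊥, fun _ _ => ⊥, fun h => (hx h).elim⟩
  choose g B hgB using key
  obtain ⟨v, hv⟩ := uniformize h n s g
    (fun x hx i hi => by
      have := (hgB x hx).1 i (hi.trans (Nat.lt_succ_self n))
      rwa [update_of_ne hi.ne] at this)
    (fun x hx => by
      have := (hgB x hx).1 n (Nat.lt_succ_self n)
      rwa [update_self] at this)
  obtain ⟨x0, hx0, -⟩ := not_bdd_of_not_NS hv ⊥
  have hch : ∀ y, ∃ x, x ∈ {x ∈ {x | Lg G (n + 1) (update s n x)} |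
      (∀ i < n, g x i = v i) ∧ g x n = v n} ∧ y < x := fun y => not_bdd_of_not_NS hv y
  choose c hc1 hc2 using hch
  refine ⟨v, fun i hi => ?_, fun m b => if m < n then ⊥ else if m = n then v n else B (c (b n)) m b,
    ?_, fun b h1 h2 => ?_⟩
  · have := (hgB x0 hx0.1).1 i (hi.trans (Nat.lt_succ_self n))
    rw [update_of_ne hi.ne, hx0.2.1 i hi] at this
    exact this
  · intro m t t' htt
    by_cases hmn : m < n
    · simp [hmn]
    · by_cases hmn' : m = n
      · simp [hmn']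
      · simp only [if_neg hmn, if_neg hmn']
        rw [htt n (by omega)]
        exact (hgB _ (hc1 _).1).2.1 m t t' htt
  · have hbn : v n < b.1 n := by
      have := h2 n le_rfl
      simpa using this
    have hc := hc1 (b.1 n)
    refine (hgB (c (b.1 n)) hc.1).2.2 b (fun i hi => ?_) (fun m hm => ?_)
    · rcases Nat.lt_succ_iff_lt_or_eq.1 hi with h3 | h3
      · rw [update_of_ne h3.ne, hc.2.1 i h3]
        exact h1 i h3
      · subst h3
        rw [update_self, hc.2.2]
        exact ⟨hbn, (hc2 _).le⟩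
    · have := h2 m (by omega)
      simpa [show ¬ m < n by omega, show ¬ m = n by omega] using this

/-- For a point-finite family. -/
theorem Lg.exists_of_stat {𝒢 : Set (Set (Inc W))} (hpf : ∀ b : Inc W, {G ∈ 𝒢 | b ∈ G}.Finite)
    {n : ℕ} {s : ℕ → W} (hs : Good n s)
    (h : ¬ NS {x | ∃ G ∈ 𝒢, Lg G (n + 1) (update s n x)}) : ∃ G ∈ 𝒢, Lg G n s := by
  classical
  by_contra hno
  push Not at hno
  have hns : ∀ G ∈ 𝒢, NS {x | Lg G (n + 1) (update s n x)} := by
    intro G hG
    by_contra hcon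
    exact hno G hG (Lg.of_stat hcon)
  have key : ∀ x, ∃ (G : Set (Inc W)) (g : ℕ → W) (B : ℕ → (ℕ → W) → W),
      (∃ G ∈ 𝒢, Lg G (n + 1) (update s n x)) →
      G ∈ 𝒢 ∧ Lg G (n + 1) (update s n x) ∧ (∀ i < n + 1, g i < update s n x i) ∧ Caus B ∧
      ∀ b : Inc W, (∀ i < n + 1, g i < b.1 i ∧ b.1 i ≤ update s n x i) →
        (∀ m, n + 1 ≤ m → B m b.1 < b.1 m) → b ∈ G := by
    intro x
    by_cases hx : ∃ G ∈ 𝒢, Lg G (n + 1) (update s n x)
    · obtain ⟨G, hG, hL⟩ := hx
      have hL' := hL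
      obtain ⟨g, hg, B, hB, hb⟩ := hL
      exact ⟨G, g, B, fun _ => ⟨hG, hL', hg, hB, hb⟩⟩
    · exact ⟨∅, fun _ => ⊥, fun _ _ => ⊥, fun h => (hx h).elim⟩
  choose G g B hG using key
  obtain ⟨v, hv⟩ := uniformize h n s g
    (fun x hx i hi => by
      have := (hG x hx).2.2.1 i (hi.trans (Nat.lt_succ_self n))
      rwa [update_of_ne hi.ne] at this)
    (fun x hx => by
      have := (hG x hx).2.2.1 n (Nat.lt_succ_self n)
      rwa [update_self] at this)
  -- the value of the new coordinate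
  obtain ⟨e, he⟩ := exists_gt_of_countable (A := {⊥, v n} ∪ s '' (Iio n : Set ℕ))
    ((by simp : ({⊥, v n} : Set W).Countable).union ((Set.to_countable (Iio n : Set ℕ)).image _))
  have hv2 := not_NS_Ioi hv e
  set S2 : Set W := {x ∈ {x ∈ {x | ∃ G ∈ 𝒢, Lg G (n + 1) (update s n x)} |
    (∀ i < n, g x i = v i) ∧ g x n = v n} | e < x} with hS2
  have hinf : (G '' S2).Infinite := by
    intro hfin
    apply hv2
    have : Countable (G '' S2) := hfin.countable.to_subtype
    have h1 : ∀ H : (G '' S2), NS {x | Lg H.1 (n + 1) (update s n x)} := by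
      rintro ⟨H, x, hx, rfl⟩
      exact hns _ (hG x hx.1.1).1
    refine (NS.iUnion h1).mono fun x hx => ?_
    rw [mem_iUnion]
    exact ⟨⟨G x, x, hx, rfl⟩, (hG x hx.1.1).2.1⟩
  -- a sequence of distinct members
  let em := hinf.natEmbedding
  have hx : ∀ k, ∃ x ∈ S2, G x = (em k).1 := fun k => (em k).2
  choose x hxS hxG using hx
  have hxk : ∀ k, ∃ G ∈ 𝒢, Lg G (n + 1) (update s n (x k)) := fun k => (hxS k).1.1
  -- the diagonal point
  have hgood : Good (n + 1) (update s n e) :=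
    hs.succ (he _ (Or.inl (by simp))) fun i hi => he _ (Or.inr ⟨i, hi, rfl⟩)
  have hCaus : Caus fun m t => sb fun k => B (x k) m t := by
    intro m t t' htt
    have : (fun k => B (x k) m t) = fun k => B (x k) m t' := by
      funext k
      exact (hG _ (hxk k)).2.2.2.1 m t t' htt
    show sb (fun k => B (x k) m t) = sb fun k => B (x k) m t'
    rw [this]
  obtain ⟨b, hb1, hb2⟩ := complete hgood hCaus
  have hmem : ∀ k, b ∈ G (x k) := by
    intro k
    refine (hG _ (hxk k)).2.2.2.2 b (fun i hi => ?_) (fun m hm => ?_)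
    · rw [hb1 i hi]
      rcases Nat.lt_succ_iff_lt_or_eq.1 hi with h3 | h3
      · have h4 := (hG _ (hxk k)).2.2.1 i hi
        rw [update_of_ne h3.ne] at h4 ⊢
        rw [update_of_ne h3.ne]
        exact ⟨h4, le_rfl⟩
      · subst h3
        rw [update_self, update_self, (hxS k).1.2.2]
        exact ⟨he _ (Or.inl (by simp)), (hxS k).2.le⟩
    · exact (lt_sb (fun k => B (x k) m b.1) k).trans (hb2 m hm)
  have hinf2 : {G ∈ 𝒢 | b ∈ G}.Infinite := by
    refine Set.infinite_of_injective_forall_mem (f := fun k => (em k).1) ?_ ?_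
    · intro k l hkl
      exact em.injective (Subtype.ext hkl)
    · intro k
      show (em k).1 ∈ {G ∈ 𝒢 | b ∈ G}
      rw [← hxG k]
      exact ⟨(hG _ (hxk k)).1, hmem k⟩
  exact hinf2 (hpf b)

/-- The cover of `Inc W` by the sets `{a | a 0 ≤ r}` has no point-finite open refinement. -/
theorem no_pointfinite (𝒢 : Set (Set (Inc W))) (hopen : ∀ G ∈ 𝒢, IsOpen G) (hcov : ⋃₀ 𝒢 = univ)
    (hb : ∀ G ∈ 𝒢, ∃ r : W, ∀ a ∈ G, a.1 0 ≤ r)
    (hpf : ∀ b : Inc W, {G ∈ 𝒢 | b ∈ G}.Finite) : False := by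
  classical
  obtain ⟨a, -, ha⟩ := build (W := W) (fun n s => Good n s ∧ ¬ ∃ G ∈ 𝒢, Lg G n s)
    (by
      intro n s s' h ⟨h1, h2⟩
      refine ⟨h1.congr h, ?_⟩
      rintro ⟨G, hG, hL⟩
      exact h2 ⟨G, hG, hL.congr fun i hi => (h i hi).symm⟩) 0 (fun _ => ⊥)
    (by
      refine ⟨⟨fun i hi => by omega, fun i j _ hj => by omega⟩, ?_⟩
      rintro ⟨G, hG, g, -, B, hB, hbG⟩
      obtain ⟨r, hr⟩ := hb G hG
      have hB' : Caus fun m t => max (B m t) r := by
        intro m t t' htt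
        show max (B m t) r = max (B m t') r
        rw [hB m t t' htt]
      obtain ⟨b, -, hb2⟩ := complete (n := 0) (s := fun _ => (⊥ : W))
        ⟨fun i hi => by omega, fun i j _ hj => by omega⟩ hB'
      have h1 : b ∈ G := hbG b (fun i hi => by omega) fun m hm =>
        (le_max_left _ _).trans_lt (hb2 m hm)
      exact absurd (hr b h1) (not_le.2 ((le_max_right _ _).trans_lt (hb2 0 le_rfl))))
    (by
      intro n _ s ⟨h1, h2⟩
      have h3 : NS {x | ∃ G ∈ 𝒢, Lg G (n + 1) (update s n x)} := by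
        by_contra h
        exact h2 (Lg.exists_of_stat hpf h1 h)
      obtain ⟨e, he⟩ := exists_gt_of_countable (A := {⊥} ∪ s '' (Iio n : Set ℕ))
        ((by simp : ({⊥} : Set W).Countable).union ((Set.to_countable (Iio n : Set ℕ)).image _))
      have h4 : ¬ NS ({x | ∃ G ∈ 𝒢, Lg G (n + 1) (update s n x)}ᶜ) := by
        intro h
        apply not_NS_univ (W := W)
        exact (h3.union h).mono fun x _ => by
          by_cases hx : x ∈ {x | ∃ G ∈ 𝒢, Lg G (n + 1) (update s n x)}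
          · exact Or.inl hx
          · exact Or.inr hx
      obtain ⟨x, hx, hex⟩ := not_bdd_of_not_NS h4 e
      exact ⟨x, h1.succ ((he _ (Or.inl rfl)).trans hex)
        (fun i hi => (he _ (Or.inr ⟨i, hi, rfl⟩)).trans hex), hx⟩)
  have hgood : ∀ m, Good m a := fun m => (ha m (Nat.zero_le _)).1
  let t : Inc W := ⟨a, strictMono_nat_of_lt_succ fun k => (hgood (k + 2)).2 k (k + 1) (by omega)
    (by omega), (hgood 1).1 0 (by omega)⟩
  have ht : t ∈ ⋃₀ 𝒢 := by rw [hcov]; exact mem_univ t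
  obtain ⟨G, hG, htG⟩ := ht
  obtain ⟨n, g, hg, hn⟩ := isOpen_iff.1 (hopen G hG) t htG
  refine (ha n (Nat.zero_le _)).2 ⟨G, hG, g, fun i _ => hg i, fun _ _ => ⊥, fun _ _ _ _ => rfl,
    fun b hb1 _ => hn hb1⟩

end Pool.Agent.IncSeq
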