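import Pool.Agent.IncSeq.Ideal

set_option autoImplicit false
set_option linter.unusedSectionVars false

open Set Function

namespace Pool.Agent.IncSeq

variable {W : Type} [LinearOrder W] [OrderBot W] [Om1 W]

/-- Strictly increasing sequences of non-minimal elements. -/
def Inc (W : Type) [LinearOrder W] [OrderBot W] : Type :=
  {a : ℕ → W // StrictMono a ∧ ⊥ < a 0}

theorem Inc.bot_lt (a : Inc W) (i : ℕ) : ⊥ < a.1 i :=
  a.2.2.trans_le (a.2.1.monotone (Nat.zero_le i))

/-- boxes `∏_{i<n} (g i, s i]` -/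
def box (n : ℕ) (g s : ℕ → W) : Set (Inc W) := {b | ∀ i < n, g i < b.1 i ∧ b.1 i ≤ s i}

instance : TopologicalSpace (Inc W) where
  IsOpen U := ∀ a ∈ U, ∃ n, ∃ g : ℕ → W, (∀ i, g i < a.1 i) ∧ box n g a.1 ⊆ U
  isOpen_univ := fun a _ => ⟨0, fun _ => ⊥, fun i => a.bot_lt i, fun _ _ => mem_univ _⟩
  isOpen_inter := by
    rintro U V hU hV a ⟨haU, haV⟩
    obtain ⟨n, g, hg, hn⟩ := hU a haU
    obtain ⟨m, h, hh, hm⟩ := hV a haV
    refine ⟨max n m, fun i => max (g i) (h i), fun i => max_lt (hg i) (hh i), fun b hb => ⟨hn ?_, hm ?_⟩⟩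
    · intro i hi
      exact ⟨(le_max_left _ _).trans_lt (hb i (lt_max_of_lt_left hi)).1,
        (hb i (lt_max_of_lt_left hi)).2⟩
    · intro i hi
      exact ⟨(le_max_right _ _).trans_lt (hb i (lt_max_of_lt_right hi)).1,
        (hb i (lt_max_of_lt_right hi)).2⟩
  isOpen_sUnion := by
    intro S hS a ⟨U, hU, haU⟩
    obtain ⟨n, g, hg, hn⟩ := hS U hU a haU
    exact ⟨n, g, hg, hn.trans (subset_sUnion_of_mem hU)⟩

theorem isOpen_iff {U : Set (Inc W)} :
    IsOpen U ↔ ∀ a ∈ U, ∃ n, ∃ g : ℕ → W, (∀ i, g i < a.1 i) ∧ box n g a.1 ⊆ U := Iff.rfl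

theorem isOpen_box (n : ℕ) (g s : ℕ → W) : IsOpen (box n g s) := by
  rw [isOpen_iff]
  intro a ha
  refine ⟨n, fun i => if i < n then g i else ⊥, fun i => ?_, fun b hb i hi => ?_⟩
  · by_cases h : i < n
    · simp only [if_pos h]; exact (ha i h).1
    · simp only [if_neg h]; exact a.bot_lt i
  · have h := hb i hi
    simp only [if_pos hi] at h
    exact ⟨h.1, h.2.trans (ha i hi).2⟩

theorem mem_box_self (n : ℕ) (g : ℕ → W) (a : Inc W) (h : ∀ i < n, g i < a.1 i) :
    a ∈ box n g a.1 := fun i hi => ⟨h i hi, le_rfl⟩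

/-- `P 𝒪 j n s`: for all large `ξ_0`, for all large `ξ_1`, ... (`j` times), a box around
`s|n ⌢ ξ_0 ⌢ ... ⌢ ξ_{j-1}` is contained in a member of `𝒪`. -/
def P (O : Set (Set (Inc W))) : ℕ → ℕ → (ℕ → W) → Prop
  | 0, n, s => ∃ g : ℕ → W, (∀ i < n, g i < s i) ∧ ∃ U ∈ O, box n g s ⊆ U
  | j + 1, n, s => ∃ b : W, ∀ x, b < x → P O j (n + 1) (update s n x)

variable {O : Set (Set (Inc W))}

theorem P.congr : ∀ {j n : ℕ} {s s' : ℕ → W}, (∀ i < n, s i = s' i) → P O j n s → P O j n s'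
  | 0, n, s, s', h, ⟨g, hg, U, hU, hb⟩ =>
    ⟨g, fun i hi => h i hi ▸ hg i hi, U, hU, fun b hbb => hb fun i hi =>
      ⟨(hbb i hi).1, (hbb i hi).2.trans (h i hi).ge⟩⟩
  | j + 1, n, s, s', h, ⟨b, hb⟩ => by
    refine ⟨b, fun x hx => P.congr ?_ (hb x hx)⟩
    intro i hi
    rcases Nat.lt_succ_iff_lt_or_eq.1 hi with h1 | h1
    · simp [update_of_ne h1.ne, h i h1]
    · subst h1; simp

theorem P.zero_succ {n : ℕ} {s : ℕ → W} (hs : ⊥ < s n) (h : P O 0 n s) : P O 0 (n + 1) s := by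
  obtain ⟨g, hg, U, hU, hb⟩ := h
  refine ⟨update g n ⊥, fun i hi => ?_, U, hU, fun b hbb => hb fun i hi => ?_⟩
  · rcases Nat.lt_succ_iff_lt_or_eq.1 hi with h1 | h1
    · simp [update_of_ne h1.ne, hg i h1]
    · subst h1; simpa using hs
  · have := hbb i (hi.trans (Nat.lt_succ_self n))
    rw [update_of_ne hi.ne] at this
    exact this

theorem P.succ : ∀ {j n : ℕ} {s : ℕ → W}, P O j n s → P O (j + 1) n s
  | 0, n, s, h => by
    refine ⟨⊥, fun x hx => ?_⟩
    apply P.zero_succ (by simpa using hx)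
    exact P.congr (fun i hi => by simp [update_of_ne hi.ne]) h
  | j + 1, n, s, ⟨b, hb⟩ => ⟨b, fun x hx => (hb x hx).succ⟩

theorem P.isOpen : ∀ {j n : ℕ} {s : ℕ → W}, P O j n s →
    ∃ g : ℕ → W, (∀ i < n, g i < s i) ∧
      ∀ s' : ℕ → W, (∀ i < n, g i < s' i ∧ s' i ≤ s i) → P O j n s'
  | 0, n, s, ⟨g, hg, U, hU, hb⟩ => by
    refine ⟨g, hg, fun s' hs' => ⟨g, fun i hi => (hs' i hi).1, U, hU, fun b hbb => hb fun i hi => ?_⟩⟩
    exact ⟨(hbb i hi).1, (hbb i hi).2.trans (hs' i hi).2⟩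
  | j + 1, n, s, ⟨b, hb⟩ => by
    have key : ∀ x, ∃ g : ℕ → W, b < x → (∀ i < n + 1, g i < update s n x i) ∧
        ∀ s' : ℕ → W, (∀ i < n + 1, g i < s' i ∧ s' i ≤ update s n x i) → P O j (n + 1) s' := by
      intro x
      by_cases hx : b < x
      · obtain ⟨g, hg, hg'⟩ := P.isOpen (hb x hx)
        exact ⟨g, fun _ => ⟨hg, hg'⟩⟩
      · exact ⟨fun _ => ⊥, fun h => (hx h).elim⟩
    choose g hg using key
    have hS : ¬ NS {x ∈ (univ : Set W) | b < x} := not_NS_Ioi not_NS_univ b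
    obtain ⟨v, hv⟩ := uniformize hS n s g
      (fun x hx i hi => by
        have := (hg x hx.2).1 i (hi.trans (Nat.lt_succ_self n))
        rwa [update_of_ne hi.ne] at this)
      (fun x hx => by
        have := (hg x hx.2).1 n (Nat.lt_succ_self n)
        rwa [update_self] at this)
    obtain ⟨x0, hx0, -⟩ := not_bdd_of_not_NS hv ⊥
    refine ⟨v, fun i hi => ?_, fun s' hs' => ⟨v n, fun y hy => ?_⟩⟩
    · have := (hg x0 hx0.1.2).1 i (hi.trans (Nat.lt_succ_self n))
      rw [update_of_ne hi.ne, hx0.2.1 i hi] at this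
      exact this
    · obtain ⟨x, hx, hyx⟩ := not_bdd_of_not_NS hv y
      refine (hg x hx.1.2).2 _ fun i hi => ?_
      rcases Nat.lt_succ_iff_lt_or_eq.1 hi with h1 | h1
      · rw [update_of_ne h1.ne, update_of_ne h1.ne, hx.2.1 i h1]
        exact hs' i h1
      · subst h1
        rw [update_self, update_self, hx.2.2]
        exact ⟨hy, hyx.le⟩

theorem P.dich {j n : ℕ} {s : ℕ → W} (h : ¬ NS {x | P O j (n + 1) (update s n x)}) :
    P O (j + 1) n s := by
  have key : ∀ x, ∃ g : ℕ → W, P O j (n + 1) (update s n x) →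
      (∀ i < n + 1, g i < update s n x i) ∧
        ∀ s' : ℕ → W, (∀ i < n + 1, g i < s' i ∧ s' i ≤ update s n x i) → P O j (n + 1) s' := by
    intro x
    by_cases hx : P O j (n + 1) (update s n x)
    · obtain ⟨g, hg, hg'⟩ := P.isOpen hx
      exact ⟨g, fun _ => ⟨hg, hg'⟩⟩
    · exact ⟨fun _ => ⊥, fun h => (hx h).elim⟩
  choose g hg using key
  obtain ⟨v, hv⟩ := uniformize h n s g
    (fun x hx i hi => by
      have := (hg x hx).1 i (hi.trans (Nat.lt_succ_self n))
      rwa [update_of_ne hi.ne] at this)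
    (fun x hx => by
      have := (hg x hx).1 n (Nat.lt_succ_self n)
      rwa [update_self] at this)
  refine ⟨v n, fun y hy => ?_⟩
  obtain ⟨x, hx, hyx⟩ := not_bdd_of_not_NS hv y
  refine (hg x hx.1).2 _ fun i hi => ?_
  rcases Nat.lt_succ_iff_lt_or_eq.1 hi with h1 | h1
  · rw [update_of_ne h1.ne, update_of_ne h1.ne]
    refine ⟨?_, le_rfl⟩
    have := (hg x hx.1).1 i (h1.trans (Nat.lt_succ_self n))
    rwa [update_of_ne h1.ne] at this
  · subst h1
    rw [update_self, update_self, hx.2.2]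
    exact ⟨hy, hyx.le⟩

theorem NS_bad (j n : ℕ) (s : ℕ → W) :
    NS {x | ¬ (P O (j + 1) n s ↔ P O j (n + 1) (update s n x))} := by
  by_cases h : P O (j + 1) n s
  · obtain ⟨b, hb⟩ := h
    refine NS.of_bdd b fun x hx => ?_
    by_contra hbx
    push Not at hbx
    exact hx ⟨fun _ => hb x hbx, fun _ => ⟨b, hb⟩⟩
  · have : NS {x | P O j (n + 1) (update s n x)} := by
      by_contra h'
      exact h (P.dich h')
    refine this.mono fun x hx => ?_
    by_contra hx'
    exact hx ⟨fun h1 => (h h1).elim, fun h1 => (hx' h1).elim⟩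

/-- A closed unbounded set of `d`, described by closure under `b`, on which the rank drops by one. -/
theorem exists_club (O : Set (Set (Inc W))) : ∃ b : W → W, ∀ d, d ≠ ⊥ → (∀ y, y < d → b y < d) →
    ∀ (n : ℕ) (s : ℕ → W), (∀ i < n, s i < d) →
      ∀ j, P O (j + 1) n s ↔ P O j (n + 1) (update s n d) := by
  classical
  let ext : (n : ℕ) → (Fin n → W) → ℕ → W := fun n t i => if h : i < n then t ⟨i, h⟩ else ⊥
  have key : ∀ (j n : ℕ) (t : Fin n → W), ∃ b : W → W, ∀ d, d ≠ ⊥ → (∀ y, y < d → b y < d) →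
      (P O (j + 1) n (ext n t) ↔ P O j (n + 1) (update (ext n t) n d)) := by
    intro j n t
    obtain ⟨b, hb⟩ := (NS_bad (O := O) j n (ext n t)).exists_club
    refine ⟨b, fun d hd hcl => ?_⟩
    have := hb d hd hcl
    simpa using this
  choose b hb using key
  have hsup : ∀ y : W, ∃ w, ∀ (j n : ℕ) (t : Fin n → W), (∀ i, t i ≤ y) → ∀ z ≤ y, b j n t z < w := by
    intro y
    have hc : (⋃ j : ℕ, ⋃ n : ℕ, (fun p : (Fin n → W) × W => b j n p.1 p.2) ''
        ((Set.pi univ fun _ : Fin n => Iic y) ×ˢ Iic y)).Countable := by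
      refine countable_iUnion fun j => countable_iUnion fun n => Countable.image ?_ _
      exact (countable_univ_pi fun _ => Om1.ctb y).prod (Om1.ctb y)
    obtain ⟨w, hw⟩ := exists_gt_of_countable hc
    refine ⟨w, fun j n t ht z hz => hw _ ?_⟩
    simp only [mem_iUnion]
    exact ⟨j, n, (t, z), ⟨fun i _ => ht i, hz⟩, rfl⟩
  choose B hB using hsup
  refine ⟨B, fun d hd hcl n s hs j => ?_⟩
  let t : Fin n → W := fun i => s i
  have hext : ∀ i < n, ext n t i = s i := fun i hi => by simp [ext, t, hi]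
  have hmain : P O (j + 1) n (ext n t) ↔ P O j (n + 1) (update (ext n t) n d) := by
    apply hb j n t d hd
    intro y hy
    -- a common upper bound of `y` and the entries, below `d`
    have hm : ∃ m, m < d ∧ y ≤ m ∧ ∀ i : Fin n, t i ≤ m := by
      have : ∀ k ≤ n, ∃ m, m < d ∧ y ≤ m ∧ ∀ i < k, s i ≤ m := by
        intro k
        induction k with
        | zero => intro _; exact ⟨y, hy, le_rfl, fun i hi => (Nat.not_lt_zero _ hi).elim⟩
        | succ k ih =>
          intro hk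
          obtain ⟨m, hm1, hm2, hm3⟩ := ih (by omega)
          refine ⟨max m (s k), max_lt hm1 (hs k (by omega)), hm2.trans (le_max_left _ _), ?_⟩
          intro i hi
          rcases Nat.lt_succ_iff_lt_or_eq.1 hi with h1 | h1
          · exact (hm3 i h1).trans (le_max_left _ _)
          · subst h1; exact le_max_right _ _
      obtain ⟨m, hm1, hm2, hm3⟩ := this n le_rfl
      exact ⟨m, hm1, hm2, fun i => hm3 i i.2⟩
    obtain ⟨m, hm1, hm2, hm3⟩ := hm
    exact (hB m j n t hm3 y hm2).trans (hcl m hm1)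
  have e1 : P O (j + 1) n (ext n t) ↔ P O (j + 1) n s :=
    ⟨P.congr hext, P.congr fun i hi => (hext i hi).symm⟩
  have h2 : ∀ i < n + 1, update (ext n t) n d i = update s n d i := by
    intro i hi
    rcases Nat.lt_succ_iff_lt_or_eq.1 hi with h1 | h1
    · rw [update_of_ne h1.ne, update_of_ne h1.ne, hext i h1]
    · subst h1; simp
  have e2 : P O j (n + 1) (update (ext n t) n d) ↔ P O j (n + 1) (update s n d) :=
    ⟨P.congr h2, P.congr fun i hi => (h2 i hi).symm⟩
  rw [← e1, ← e2]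
  exact hmain

/-- Point-finite systems on countable initial segments. -/
theorem exists_gl : ∃ gl : W → W → W, (∀ l x, x < l → x ≠ ⊥ → gl l x < x) ∧
    ∀ l y, {x | y ≤ x ∧ x < l ∧ gl l x < y}.Finite := by
  classical
  have key : ∀ l : W, ∃ e : W → ℕ, InjOn e (Iio l) := by
    intro l
    have : (Iio l).Countable := (Om1.ctb l).mono Iio_subset_Iic_self
    exact Set.countable_iff_exists_injOn.1 this
  choose e he using key
  have key2 : ∀ l x : W, ∃ z : W, x < l → x ≠ ⊥ → z < x ∧ ∀ y, y < x → e l y < e l x → y ≤ z := by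
    intro l x
    by_cases hx : x < l ∧ x ≠ ⊥
    · have hfin : {y | y < x ∧ e l y < e l x}.Finite := by
        apply Set.Finite.of_finite_image (f := e l)
        · exact (Set.finite_Iio (e l x)).subset (by rintro _ ⟨y, ⟨_, hy⟩, rfl⟩; exact hy)
        · exact (he l).mono fun y hy => hy.1.trans hx.1
      by_cases hne : {y | y < x ∧ e l y < e l x}.Nonempty
      · obtain ⟨z, hz, hmax⟩ := hfin.exists_maximalFor id _ hne
        refine ⟨z, fun _ _ => ⟨hz.1, fun y hy1 hy2 => ?_⟩⟩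
        by_contra hcon
        push Not at hcon
        exact absurd (hmax (j := y) ⟨hy1, hy2⟩ hcon.le) (not_le.2 hcon)
      · refine ⟨⊥, fun _ _ => ⟨bot_lt_iff_ne_bot.2 hx.2, fun y hy1 hy2 => ?_⟩⟩
        exact (hne ⟨y, hy1, hy2⟩).elim
    · exact ⟨⊥, fun h1 h2 => (hx ⟨h1, h2⟩).elim⟩
  choose gl hgl using key2
  refine ⟨gl, fun l x h1 h2 => (hgl l x h1 h2).1, fun l y => ?_⟩
  have hfin : ({y} ∪ {x | x < l ∧ e l x ≤ e l y}).Finite := by
    refine (Set.finite_singleton y).union ?_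
    apply Set.Finite.of_finite_image (f := e l)
    · exact (Set.finite_Iic (e l y)).subset (by rintro _ ⟨x, ⟨_, hx⟩, rfl⟩; exact hx)
    · exact (he l).mono fun x hx => hx.1
  refine hfin.subset fun x hx => ?_
  obtain ⟨h1, h2, h3⟩ := hx
  rcases h1.eq_or_lt with h4 | h4
  · left; simp [h4]
  · right
    refine ⟨h2, ?_⟩
    by_contra hcon
    push Not at hcon
    have hxb : x ≠ ⊥ := (bot_le.trans_lt h4).ne'
    exact absurd ((hgl l x h2 hxb).2 y h4 hcon) (not_le.2 h3)

end Pool.Agent.IncSeq
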