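import Mathlib

set_option autoImplicit false
set_option linter.unusedSectionVars false

open Set

namespace Pool.Agent.IncSeq

/-- The covering property (S) of Junnila, in finite form. -/
def CovS (X : Type) [TopologicalSpace X] : Prop :=
  ∀ O : Set (Set X), (∀ U ∈ O, IsOpen U) → ⋃₀ O = univ →
    ∃ V : X → Set X, (∀ a, IsOpen (V a)) ∧ (∀ a, a ∈ V a) ∧
      ∀ b, ∃ F ⊆ O, F.Finite ∧ {a | b ∈ V a} ⊆ ⋃₀ F

variable {X : Type} [TopologicalSpace X]

/-- Closed sets whose points lie in at most `k` members of an open cover `G`. -/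
theorem pf_of_bounded (hS : CovS X) (G : Set (Set X)) (hG : ∀ U ∈ G, IsOpen U)
    (hcov : ⋃₀ G = univ) :
    ∀ (k : ℕ) (L : Set X), IsClosed L → (∀ x ∈ L, {U ∈ G | x ∈ U}.Finite ∧
      {U ∈ G | x ∈ U}.ncard ≤ k) →
      ∃ H : Set (Set X), (∀ U ∈ H, IsOpen U ∧ ∃ W ∈ G, U ⊆ W) ∧ L ⊆ ⋃₀ H ∧
        ∀ y, {U ∈ H | y ∈ U}.Finite := by
  classical
  intro k
  induction k with
  | zero =>
    intro L _ hk
    have : L = ∅ := by
      by_contra hne
      obtain ⟨x, hx⟩ := nonempty_iff_ne_empty.2 hne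
      obtain ⟨h1, h2⟩ := hk x hx
      have hxc : x ∈ ⋃₀ G := by rw [hcov]; exact mem_univ x
      obtain ⟨U, hU, hxU⟩ := hxc
      have h3 : {U ∈ G | x ∈ U} = ∅ := by
        rw [← Set.ncard_eq_zero h1]; omega
      have : U ∈ {U ∈ G | x ∈ U} := ⟨hU, hxU⟩
      rw [h3] at this
      exact this
    subst this
    exact ⟨∅, by simp, by simp, by simp⟩
  | succ k ih =>
    intro L hL hk
    -- the points with at most `k` members
    let L0 : Set X := {x ∈ L | {U ∈ G | x ∈ U}.ncard ≤ k}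
    have hL0 : IsClosed L0 := by
      rw [← isOpen_compl_iff, isOpen_iff_mem_nhds]
      intro x hx
      by_cases hxL : x ∈ L
      · obtain ⟨h1, h2⟩ := hk x hxL
        have h3 : k < {U ∈ G | x ∈ U}.ncard := by
          by_contra h
          exact hx ⟨hxL, not_lt.1 h⟩
        have hopen : IsOpen (⋂₀ {U ∈ G | x ∈ U}) :=
          h1.isOpen_sInter fun U hU => hG U hU.1
        refine Filter.mem_of_superset (hopen.mem_nhds fun U hU => hU.2) ?_
        intro y hy hyL0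
        have h4 : {U ∈ G | x ∈ U} ⊆ {U ∈ G | y ∈ U} := fun U hU => ⟨hU.1, hy U hU⟩
        have h5 := Set.ncard_le_ncard h4 (hk y hyL0.1).1
        exact absurd (h5.trans hyL0.2) (not_le.2 h3)
      · refine Filter.mem_of_superset (hL.isOpen_compl.mem_nhds hxL) ?_
        intro y hy hyL0
        exact hy hyL0.1
    obtain ⟨H0, hH0, hH0c, hH0f⟩ := ih L0 hL0 fun x hx => ⟨(hk x hx.1).1, hx.2⟩
    let L1 : Set X := L \ ⋃₀ H0
    have hH0o : IsOpen (⋃₀ H0) := isOpen_sUnion fun U hU => (hH0 U hU).1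
    have hL1 : IsClosed L1 := hL.sdiff hH0o
    have hcard : ∀ x ∈ L1, {U ∈ G | x ∈ U}.Finite ∧ {U ∈ G | x ∈ U}.ncard = k + 1 := by
      intro x hx
      obtain ⟨h1, h2⟩ := hk x hx.1
      refine ⟨h1, le_antisymm h2 ?_⟩
      by_contra h
      exact hx.2 (hH0c ⟨hx.1, by omega⟩)
    -- the auxiliary cover
    let O : Set (Set X) := {L1ᶜ} ∪ (fun x => ⋂₀ {U ∈ G | x ∈ U}) '' L1
    have hO : ∀ U ∈ O, IsOpen U := by
      rintro U (h | ⟨x, hx, rfl⟩)
      · rw [mem_singleton_iff.1 h]; exact hL1.isOpen_compl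
      · exact (hcard x hx).1.isOpen_sInter fun U hU => hG U hU.1
    have hOc : ⋃₀ O = univ := by
      ext x
      simp only [mem_univ, iff_true]
      by_cases hx : x ∈ L1
      · exact ⟨_, Or.inr ⟨x, hx, rfl⟩, fun U hU => hU.2⟩
      · exact ⟨_, Or.inl rfl, hx⟩
    obtain ⟨V, hVo, hVs, hVf⟩ := hS O hO hOc
    let HG : Set X → Set X := fun U => ⋃ x ∈ L1 ∩ U, V x ∩ U
    refine ⟨H0 ∪ HG '' G, ?_, ?_, ?_⟩
    · rintro U (hU | ⟨W, hW, rfl⟩)
      · exact hH0 U hU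
      · refine ⟨isOpen_biUnion fun x _ => (hVo x).inter (hG W hW), W, hW, ?_⟩
        intro y hy
        simp only [HG, mem_iUnion] at hy
        obtain ⟨x, _, hy⟩ := hy
        exact hy.2
    · intro x hx
      by_cases hx0 : x ∈ ⋃₀ H0
      · obtain ⟨U, hU, hxU⟩ := hx0
        exact ⟨U, Or.inl hU, hxU⟩
      · have hxc : x ∈ ⋃₀ G := by rw [hcov]; exact mem_univ x
        obtain ⟨U, hU, hxU⟩ := hxc
        refine ⟨HG U, Or.inr ⟨U, hU, rfl⟩, ?_⟩
        simp only [HG, mem_iUnion]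
        exact ⟨x, ⟨⟨hx, hx0⟩, hxU⟩, hVs x, hxU⟩
    · intro y
      have hsub : {U ∈ H0 ∪ HG '' G | y ∈ U} ⊆ {U ∈ H0 | y ∈ U} ∪ HG '' {U ∈ G | y ∈ HG U} := by
        rintro U ⟨hU | ⟨W, hW, rfl⟩, hy⟩
        · exact Or.inl ⟨hU, hy⟩
        · exact Or.inr ⟨W, ⟨hW, hy⟩, rfl⟩
      refine ((hH0f y).union (Set.Finite.image _ ?_)).subset hsub
      obtain ⟨F, hFO, hF, hFc⟩ := hVf y
      -- members of `G` come from finitely many sets
      have hfin : (⋃ S ∈ F \ {L1ᶜ}, {U ∈ G | S ⊆ U ∧ ∃ x ∈ L1, S = ⋂₀ {U ∈ G | x ∈ U} ∧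
          U ∈ {U ∈ G | x ∈ U}}).Finite := by
        refine (hF.subset diff_subset).biUnion fun S hS => ?_
        by_cases hex : ∃ x ∈ L1, S = ⋂₀ {U ∈ G | x ∈ U}
        · obtain ⟨x, hx, hSx⟩ := hex
          refine (hcard x hx).1.subset ?_
          rintro U ⟨hU, hSU, _⟩
          refine ⟨hU, hSU ?_⟩
          rw [hSx]; exact fun W hW => hW.2
        · refine Set.finite_empty.subset ?_
          rintro U ⟨_, _, x, hx, hSx, _⟩
          exact hex ⟨x, hx, hSx⟩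
      refine hfin.subset ?_
      rintro U ⟨hU, hyU⟩
      simp only [HG, mem_iUnion] at hyU
      obtain ⟨x, ⟨hxL1, hxU⟩, hyV, _⟩ := hyU
      obtain ⟨S, hSF, hxS⟩ := hFc (show x ∈ {a | y ∈ V a} from hyV)
      have hSne : S ≠ L1ᶜ := by
        rintro rfl; exact hxS hxL1
      rcases hFO hSF with h | ⟨z, hz, hzS⟩
      · exact (hSne h).elim
      · have hzS' : S = ⋂₀ {U ∈ G | z ∈ U} := hzS.symm
        have h4 : {U ∈ G | z ∈ U} ⊆ {U ∈ G | x ∈ U} := fun W hW => ⟨hW.1, by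
          rw [hzS'] at hxS; exact hxS W hW⟩
        have h5 : {U ∈ G | z ∈ U} = {U ∈ G | x ∈ U} :=
          Set.eq_of_subset_of_ncard_le h4 (by rw [(hcard z hz).2, (hcard x hxL1).2])
            (hcard x hxL1).1
        have hUz : U ∈ {U ∈ G | z ∈ U} := by rw [h5]; exact ⟨hU, hxU⟩
        simp only [mem_iUnion]
        refine ⟨S, ⟨hSF, hSne⟩, hU, ?_, z, hz, hzS', hUz⟩
        rw [hzS']
        exact sInter_subset_of_mem hUz

/-- Countable sums of closed sets with point-finite expansions. -/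
theorem pf_of_countable (hS : CovS X) (U0 : Set (Set X)) (L : ℕ → Set X) (hLc : ⋃ n, L n = univ)
    (hH : ∀ n, ∃ H : Set (Set X), (∀ U ∈ H, IsOpen U ∧ ∃ W ∈ U0, U ⊆ W) ∧ L n ⊆ ⋃₀ H ∧
        ∀ y, {U ∈ H | y ∈ U}.Finite) :
    ∃ R : Set (Set X), (∀ V ∈ R, IsOpen V) ∧ ⋃₀ R = univ ∧ (∀ V ∈ R, ∃ U ∈ U0, V ⊆ U) ∧
      ∀ x : X, {V ∈ R | x ∈ V}.Finite := by
  classical
  choose H hH1 hH2 hH3 using hH
  let O : ℕ → Set X := fun m => ⋃ j ≤ m, ⋃₀ H j
  have hOo : ∀ m, IsOpen (O m) := fun m =>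
    isOpen_biUnion fun j _ => isOpen_sUnion fun U hU => (hH1 j U hU).1
  have hOmono : ∀ {m n}, m ≤ n → O m ⊆ O n := by
    intro m n hmn x hx
    simp only [O, mem_iUnion] at hx ⊢
    obtain ⟨j, hj, hx⟩ := hx
    exact ⟨j, hj.trans hmn, hx⟩
  have hOc : ∀ x, ∃ m, x ∈ O m := by
    intro x
    have : x ∈ ⋃ n, L n := by rw [hLc]; exact mem_univ x
    obtain ⟨n, hn⟩ := mem_iUnion.1 this
    refine ⟨n, ?_⟩
    simp only [O, mem_iUnion]
    exact ⟨n, le_rfl, hH2 n hn⟩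
  obtain ⟨V, hVo, hVs, hVf⟩ := hS (range O) (by rintro _ ⟨m, rfl⟩; exact hOo m)
    (by ext x; simp only [mem_univ, iff_true]
        obtain ⟨m, hm⟩ := hOc x
        exact ⟨_, ⟨m, rfl⟩, hm⟩)
  have hphi : ∀ y, ∃ m, {a | y ∈ V a} ⊆ O m := by
    intro y
    obtain ⟨F, hFO, hF, hFc⟩ := hVf y
    have : ∀ S ∈ F, ∃ m, S = O m := fun S hS => by
      obtain ⟨m, hm⟩ := hFO hS
      exact ⟨m, hm.symm⟩
    choose! c hc using this
    obtain ⟨M, hM⟩ := (hF.image c).bddAbove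
    refine ⟨M, fun a ha => ?_⟩
    obtain ⟨S, hSF, haS⟩ := hFc ha
    rw [hc S hSF] at haS
    exact hOmono (hM ⟨S, hSF, rfl⟩) haS
  choose phi hphi using hphi
  let K : ℕ → Set X := fun m => closure {y | phi y < m}
  have hK : ∀ m, K (m + 1) ⊆ O m := by
    intro m x hx
    rw [mem_closure_iff] at hx
    obtain ⟨y, hy1, hy2⟩ := hx (V x) (hVo x) (hVs x)
    have : x ∈ O (phi y) := hphi y hy1
    exact hOmono (Nat.lt_succ_iff.1 hy2) this
  have hK0 : K 0 = ∅ := by simp [K]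
  refine ⟨⋃ m, (fun U => U \ K m) '' H m, ?_, ?_, ?_, ?_⟩
  · intro W hW
    obtain ⟨m, U, hU, rfl⟩ := mem_iUnion.1 hW
    exact (hH1 m U hU).1.sdiff isClosed_closure
  · ext x
    simp only [mem_univ, iff_true]
    let m := Nat.find (hOc x)
    have hm : x ∈ O m := Nat.find_spec (hOc x)
    have hm' : ∀ j < m, x ∉ O j := fun j hj => Nat.find_min (hOc x) hj
    have hxH : x ∈ ⋃₀ H m := by
      simp only [O, mem_iUnion] at hm
      obtain ⟨j, hj, hxj⟩ := hm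
      rcases hj.eq_or_lt with h | h
      · rw [← h]; exact hxj
      · exfalso
        apply hm' j h
        simp only [O, mem_iUnion]
        exact ⟨j, le_rfl, hxj⟩
    obtain ⟨U, hU, hxU⟩ := hxH
    refine ⟨U \ K m, mem_iUnion.2 ⟨m, U, hU, rfl⟩, hxU, ?_⟩
    intro hxK
    rcases Nat.eq_zero_or_pos m with h | h
    · rw [h, hK0] at hxK; exact hxK
    · obtain ⟨j, hj⟩ : ∃ j, m = j + 1 := ⟨m - 1, by omega⟩
      rw [hj] at hxK
      exact hm' j (by omega) (hK j hxK)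
  · intro W hW
    obtain ⟨m, U, hU, rfl⟩ := mem_iUnion.1 hW
    obtain ⟨Z, hZ, hUZ⟩ := (hH1 m U hU).2
    exact ⟨Z, hZ, diff_subset.trans hUZ⟩
  · intro y
    have hsub : {W ∈ ⋃ m, (fun U => U \ K m) '' H m | y ∈ W} ⊆
        ⋃ m ∈ Finset.range (phi y + 1), (fun U => U \ K m) '' {U ∈ H m | y ∈ U} := by
      rintro W ⟨hW, hy⟩
      obtain ⟨m, U, hU, rfl⟩ := mem_iUnion.1 hW
      simp only [mem_iUnion]
      refine ⟨m, ?_, U, ⟨hU, hy.1⟩, rfl⟩
      rw [Finset.mem_range]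
      by_contra hcon
      push Not at hcon
      exact hy.2 (subset_closure (show phi y < m by omega))
    exact ((Finset.range (phi y + 1)).finite_toSet.biUnion fun m _ =>
      (hH3 m y).image _).subset hsub

/-- (S) and submetacompactness give point-finite refinements. -/
theorem pf_of_theta (hS : CovS X) (U0 : Set (Set X)) (G : ℕ → Set (Set X))
    (hG : ∀ n, (∀ U ∈ G n, IsOpen U ∧ ∃ W ∈ U0, U ⊆ W) ∧ ⋃₀ (G n) = univ)
    (hfin : ∀ x : X, ∃ n, {U | U ∈ G n ∧ x ∈ U}.Finite) :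
    ∃ R : Set (Set X), (∀ V ∈ R, IsOpen V) ∧ ⋃₀ R = univ ∧ (∀ V ∈ R, ∃ U ∈ U0, V ⊆ U) ∧
      ∀ x : X, {V ∈ R | x ∈ V}.Finite := by
  classical
  let L : ℕ × ℕ → Set X := fun p =>
    {x | {U ∈ G p.1 | x ∈ U}.Finite ∧ {U ∈ G p.1 | x ∈ U}.ncard ≤ p.2}
  have hLclosed : ∀ p, IsClosed (L p) := by
    intro p
    rw [← isOpen_compl_iff, isOpen_iff_mem_nhds]
    intro x hx
    -- there is a finite subfamily of size `> p.2`
    have hex : ∃ T : Finset (Set X), (∀ U ∈ T, U ∈ G p.1 ∧ x ∈ U) ∧ p.2 < T.card := by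
      by_cases hf : {U ∈ G p.1 | x ∈ U}.Finite
      · refine ⟨hf.toFinset, fun U hU => by simpa using hU, ?_⟩
        have h1 : ¬ {U ∈ G p.1 | x ∈ U}.ncard ≤ p.2 := fun h => hx ⟨hf, h⟩
        rw [Set.ncard_eq_toFinset_card _ hf] at h1
        omega
      · obtain ⟨T, hT, hTc⟩ := Set.Infinite.exists_subset_card_eq hf (p.2 + 1)
        exact ⟨T, fun U hU => hT hU, by omega⟩
    obtain ⟨T, hT, hTc⟩ := hex
    have hopen : IsOpen (⋂₀ (T : Set (Set X))) :=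
      T.finite_toSet.isOpen_sInter fun U hU => ((hG p.1).1 U (hT U hU).1).1
    refine Filter.mem_of_superset (hopen.mem_nhds fun U hU => (hT U hU).2) ?_
    rintro y hy ⟨h1, h2⟩
    have h3 : (T : Set (Set X)) ⊆ {U ∈ G p.1 | y ∈ U} := fun U hU => ⟨(hT U hU).1, hy U hU⟩
    have h4 := Set.ncard_le_ncard h3 h1
    rw [Set.ncard_coe_finset] at h4
    omega
  obtain ⟨e, he⟩ := exists_surjective_nat (ℕ × ℕ)
  refine pf_of_countable hS U0 (fun n => L (e n)) ?_ ?_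
  · ext x
    simp only [mem_iUnion, mem_univ, iff_true]
    obtain ⟨n, hn⟩ := hfin x
    obtain ⟨m, hm⟩ := he (n, {U ∈ G n | x ∈ U}.ncard)
    refine ⟨m, ?_⟩
    rw [hm]
    exact ⟨hn, le_rfl⟩
  · intro n
    obtain ⟨H, h1, h2, h3⟩ := pf_of_bounded hS (G (e n).1) (fun U hU => ((hG _).1 U hU).1)
      (hG _).2 (e n).2 (L (e n)) (hLclosed _) fun x hx => hx
    refine ⟨H, fun U hU => ⟨(h1 U hU).1, ?_⟩, h2, h3⟩
    obtain ⟨W, hW, hUW⟩ := (h1 U hU).2
    obtain ⟨Z, hZ, hWZ⟩ := ((hG _).1 W hW).2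
    exact ⟨Z, hZ, hUW.trans hWZ⟩

end Pool.Agent.IncSeq
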